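import Pool.Agent.W787.QC.Defs

set_option autoImplicit false
set_option linter.all false

open MeasureTheory Set Metric Filter Topology Real
open scoped ContDiff

noncomputable section

namespace Pool.Agent.W918.QC

open Pool.Agent.W787.QC

/-- `s^2 + |y-p|^2` -/
def r (s : ℝ) (p y : E) : ℝ := s ^ 2 + ‖y - p‖ ^ 2

theorem r_pos {s : ℝ} (hs : s ≠ 0) (p y : E) : 0 < r s p y := by
  unfold r
  positivity

theorem r_fd (s : ℝ) (p y : E) : HasFDerivAt (r s p) ((2 : ℝ) • innerSL ℝ (y - p)) y := by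
  have h1 : HasFDerivAt (fun y : E => y - p) (ContinuousLinearMap.id ℝ E) y :=
    (hasFDerivAt_id y).sub_const p
  have h3 := (h1.norm_sq).const_add (s ^ 2)
  refine h3.congr_fderiv ?_
  ext v
  simp [two_smul]

theorem inn (v : E) (i : Fin 4) : innerSL ℝ v (EuclideanSpace.single i (1 : ℝ) : E) = v i := by
  show inner ℝ v (EuclideanSpace.single i (1 : ℝ)) = v i
  rw [EuclideanSpace.inner_single_right]
  simp

theorem sumsq (s : ℝ) (p x : E) : ∑ i : Fin 4, (x i - p i) ^ 2 = r s p x - s ^ 2 := by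
  unfold r
  rw [EuclideanSpace.norm_sq_eq]
  simp

theorem lapF {s : ℝ} (hs : s ≠ 0) (p : E) (F F1 F2 : ℝ → ℝ)
    (h1 : ∀ t, 0 < t → HasDerivAt F (F1 t) t) (h2 : ∀ t, 0 < t → HasDerivAt F1 (F2 t) t) (x : E) :
    Lap (fun y => F (r s p y)) x = 4 * F2 (r s p x) * (r s p x - s ^ 2) + 8 * F1 (r s p x) := by
  have a1 : ∀ i : Fin 4, (fun y => fderiv ℝ (fun y => F (r s p y)) y (EuclideanSpace.single i (1 : ℝ))) =
      fun y => F1 (r s p y) * (2 * (y i - p i)) := by
    intro i
    funext y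
    have h := (h1 _ (r_pos hs p y)).comp_hasFDerivAt y (r_fd s p y)
    have e : fderiv ℝ (fun y => F (r s p y)) y = F1 (r s p y) • ((2 : ℝ) • innerSL ℝ (y - p)) := h.fderiv
    rw [e]
    show F1 (r s p y) * (2 * innerSL ℝ (y - p) (EuclideanSpace.single i (1 : ℝ))) = _
    rw [inn]
    rfl
  have a2 : ∀ i : Fin 4, fderiv ℝ (fun y : E => F1 (r s p y) * (2 * (y i - p i))) x
      (EuclideanSpace.single i (1 : ℝ)) = 4 * F2 (r s p x) * (x i - p i) ^ 2 + 2 * F1 (r s p x) := by
    intro i
    have b1 : HasFDerivAt (fun y => F1 (r s p y)) (F2 (r s p x) • ((2 : ℝ) • innerSL ℝ (x - p))) x :=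
      (h2 _ (r_pos hs p x)).comp_hasFDerivAt x (r_fd s p x)
    have b2 : HasFDerivAt (fun y : E => 2 * (y i - p i)) ((2 : ℝ) • (EuclideanSpace.proj i : E →L[ℝ] ℝ)) x :=
      (((EuclideanSpace.proj i : E →L[ℝ] ℝ).hasFDerivAt (x := x)).sub_const (p i)).const_mul 2
    have b3 := (b1.mul b2).fderiv
    have e : fderiv ℝ (fun y : E => F1 (r s p y) * (2 * (y i - p i))) x =
        F1 (r s p x) • ((2 : ℝ) • (EuclideanSpace.proj i : E →L[ℝ] ℝ)) +
          (2 * (x i - p i)) • (F2 (r s p x) • ((2 : ℝ) • innerSL ℝ (x - p))) := b3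
    rw [e]
    show F1 (r s p x) * (2 * ((EuclideanSpace.proj i : E →L[ℝ] ℝ) (EuclideanSpace.single i (1 : ℝ)))) +
      (2 * (x i - p i)) * (F2 (r s p x) * (2 * innerSL ℝ (x - p) (EuclideanSpace.single i (1 : ℝ)))) = _
    rw [inn]
    have e2 : (EuclideanSpace.proj i : E →L[ℝ] ℝ) (EuclideanSpace.single i (1 : ℝ)) = 1 := by simp
    have e3 : (x - p) i = x i - p i := rfl
    rw [e2, e3]
    ring
  unfold Lap
  simp only [a1, a2]
  rw [Finset.sum_add_distrib, ← Finset.mul_sum, sumsq s p x]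
  simp
  ring

theorem log_bil (h : S_BL) : S_LOG := by
  constructor
  · intro s p hs x
    have hsm : ContDiff ℝ ∞ (fun y : E => Real.log (s ^ 2 + ‖y - p‖ ^ 2)) := by
      apply ContDiff.log
      · exact contDiff_const.add ((contDiff_id.sub contDiff_const).norm_sq ℝ)
      · intro y
        exact (r_pos hs p y).ne'
    rw [h.1 _ hsm]
    have e1 : Lap (fun y : E => Real.log (s ^ 2 + ‖y - p‖ ^ 2)) =
        fun y => (fun t : ℝ => 4 / t + 4 * s ^ 2 / t ^ 2) (r s p y) := by
      funext y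
      have := lapF hs p Real.log (fun t => 1 / t) (fun t => -(1 / t ^ 2)) ?_ ?_ y
      · refine this.trans ?_
        have hr := r_pos hs p y
        field_simp
        ring
      · intro t ht
        rw [one_div]
        exact Real.hasDerivAt_log ht.ne'
      · intro t ht
        have := hasDerivAt_inv ht.ne'
        refine (this.congr_deriv ?_).congr_of_eventuallyEq ?_
        · rw [one_div]
        · filter_upwards with t
          rw [one_div]
    rw [e1]
    have := lapF hs p (fun t : ℝ => 4 / t + 4 * s ^ 2 / t ^ 2)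
      (fun t => -(4 / t ^ 2) - 8 * s ^ 2 / t ^ 3) (fun t => 8 / t ^ 3 + 24 * s ^ 2 / t ^ 4) ?_ ?_ x
    · refine this.trans ?_
      have hr := r_pos hs p x
      show _ = -96 * s ^ 4 / (r s p x) ^ 4
      field_simp
      ring
    · intro t ht
      have h1 : HasDerivAt (fun t : ℝ => 4 / t) ((0 * t - 4 * 1) / t ^ 2) t :=
        (hasDerivAt_const t (4 : ℝ)).div (hasDerivAt_id t) ht.ne'
      have h2 : HasDerivAt (fun t : ℝ => 4 * s ^ 2 / t ^ 2)
          ((0 * t ^ 2 - 4 * s ^ 2 * (2 * t)) / (t ^ 2) ^ 2) t := by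
        have := (hasDerivAt_const t (4 * s ^ 2 : ℝ)).div (hasDerivAt_pow 2 t) (pow_ne_zero 2 ht.ne')
        refine this.congr_deriv ?_
        norm_num
      refine (h1.add h2).congr_deriv ?_
      field_simp
      ring
    · intro t ht
      have h1 : HasDerivAt (fun t : ℝ => 4 / t ^ 2) ((0 * t ^ 2 - 4 * (2 * t)) / (t ^ 2) ^ 2) t := by
        have := (hasDerivAt_const t (4 : ℝ)).div (hasDerivAt_pow 2 t) (pow_ne_zero 2 ht.ne')
        refine this.congr_deriv ?_
        norm_num
      have h2 : HasDerivAt (fun t : ℝ => 8 * s ^ 2 / t ^ 3)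
          ((0 * t ^ 3 - 8 * s ^ 2 * (3 * t ^ 2)) / (t ^ 3) ^ 2) t := by
        have := (hasDerivAt_const t (8 * s ^ 2 : ℝ)).div (hasDerivAt_pow 3 t) (pow_ne_zero 3 ht.ne')
        refine this.congr_deriv ?_
        norm_num
      refine (h1.neg.sub h2).congr_deriv ?_
      field_simp
      ring
  · intro c x
    have hsm : ContDiff ℝ ∞ (fun y : E => ((y 0) ^ 2 - 1) / 2 + c) := by
      have h0 : ContDiff ℝ ∞ fun y : E => y 0 := by fun_prop
      exact (((h0.pow 2).sub contDiff_const).div_const 2).add contDiff_const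
    rw [h.1 _ hsm]
    have a1 : ∀ i : Fin 4, (fun y => fderiv ℝ (fun y : E => ((y 0) ^ 2 - 1) / 2 + c) y
        (EuclideanSpace.single i (1 : ℝ))) = fun y => y 0 * (EuclideanSpace.single i (1 : ℝ) : E) 0 := by
      intro i
      funext y
      have b1 : HasFDerivAt (fun y : E => y 0) (EuclideanSpace.proj 0 : E →L[ℝ] ℝ) y :=
        (EuclideanSpace.proj 0 : E →L[ℝ] ℝ).hasFDerivAt
      have b2 : HasFDerivAt (fun y : E => ((y 0) ^ 2 - 1) / 2 + c) (y 0 • (EuclideanSpace.proj 0 : E →L[ℝ] ℝ)) y := by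
        have := ((b1.pow 2).sub_const 1).mul_const (1 / 2)
        have h3 := this.add_const c
        refine (h3.congr_fderiv ?_).congr_of_eventuallyEq ?_
        · ext v
          simp
          ring
        · filter_upwards with t
          ring
      rw [b2.fderiv]
      rfl
    have a2 : Lap (fun y : E => ((y 0) ^ 2 - 1) / 2 + c) = fun _ => 1 := by
      funext y
      unfold Lap
      simp only [a1]
      have a3 : ∀ i : Fin 4, fderiv ℝ (fun y : E => y 0 * (EuclideanSpace.single i (1 : ℝ) : E) 0) y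
          (EuclideanSpace.single i (1 : ℝ)) = if i = 0 then 1 else 0 := by
        intro i
        have b1 : HasFDerivAt (fun y : E => y 0) (EuclideanSpace.proj 0 : E →L[ℝ] ℝ) y :=
          (EuclideanSpace.proj 0 : E →L[ℝ] ℝ).hasFDerivAt
        have b2 := (b1.mul_const ((EuclideanSpace.single i (1 : ℝ) : E) 0)).fderiv
        rw [b2]
        show (EuclideanSpace.single i (1 : ℝ) : E) 0 * (EuclideanSpace.single i (1 : ℝ) : E) 0 = _
        by_cases hi : i = 0
        · subst hi
          simp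
        · have : (EuclideanSpace.single i (1 : ℝ) : E) 0 = 0 := by
            simp [Ne.symm hi]
          rw [this]
          simp [hi]
      simp only [a3]
      simp
    rw [a2]
    unfold Lap
    simp

end Pool.Agent.W918.QC
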